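import Mathlib

/-!
# The partial inner automorphism monoid need not be residually finite

Let `T` be the semigroup generated by `x`, `y`, `z`, acting on `ℤ` by `n + 1`, `n - 1`, `-n`, where
`T` remembers the length of words. Let `S = T ∪ ℤ ∪ {0}` with `T` acting on `ℤ` from the left,
trivially from the right, and `ℤ ℤ = 0`. Then `S` is finitely generated and residually finite, but
`Inn(S)` is not residually finite: it contains the infinite Brandt semigroup of all maps `m ↦ n`
between points of `ℤ`, and this semigroup has no proper quotients except the trivial one.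
-/

set_option autoImplicit false

namespace Pool.Agent.Results.MP_c9edc3_al.NotResiduallyFinite

universe u

/-! ### The definitions of the problem -/

section Defs

variable {S : Type u} [Semigroup S]

/-- left multiplication by an element of `S¹ = S ∪ {1}`; `none` is the identity `1`. (If `S` is a
monoid with identity `e`, then `φ_{g,h}` does not change when `1` is replaced by `e` in `g` or `h`, so
the maps below are the same as for the convention `S¹ = S` for monoids `S`.) -/
def lm : Option S → S → S
  | none, a => a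
  | some g, a => g * a

/-- right multiplication by an element of `S¹ = S ∪ {1}`; `none` is the identity `1` -/
def rm : S → Option S → S
  | a, none => a
  | a, some g => a * g

/-- `D_{g,h} = {a ∈ S : g h a = a = a g h}` -/
def D (g h : Option S) : Set S := {a | lm g (lm h a) = a ∧ rm (rm a g) h = a}

theorem lm_rm (g h : Option S) (a : S) : lm g (rm a h) = rm (lm g a) h := by
  cases g <;> cases h <;> simp [lm, rm, mul_assoc]

theorem phi_mem {g h : Option S} {a : S} (ha : a ∈ D g h) : rm (lm h a) g ∈ D h g := by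
  obtain ⟨h1, h2⟩ := ha
  refine ⟨?_, ?_⟩
  · rw [lm_rm, lm_rm, h1]
  · rw [← lm_rm, ← lm_rm, ← lm_rm, h2]

theorem phi_inv {g h : Option S} {a : S} (ha : a ∈ D g h) :
    rm (lm g (rm (lm h a) g)) h = a := by
  obtain ⟨h1, h2⟩ := ha
  rw [lm_rm, h1, h2]

open Classical in
/-- the partial map `φ_{g,h} : D_{g,h} → D_{h,g}`, `a ↦ h a g`, with inverse `φ_{h,g}` -/
noncomputable def phi (g h : Option S) : S ≃. S where
  toFun a := if a ∈ D g h then some (rm (lm h a) g) else none
  invFun b := if b ∈ D h g then some (rm (lm g b) h) else none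
  inv a b := by
    constructor
    · intro H
      split_ifs at H with hb
      rw [Option.some.injEq] at H
      subst H
      rw [if_pos (phi_mem hb), phi_inv hb]
    · intro H
      split_ifs at H with ha
      rw [Option.some.injEq] at H
      subst H
      rw [if_pos (phi_mem ha), phi_inv ha]

/-- the partial bijections of `S` which are composites of maps `φ_{g,h}`, `g, h ∈ S¹` -/
inductive IsInner : (S ≃. S) → Prop
  | phi (g h : Option S) : IsInner (phi g h)
  | trans {α β : S ≃. S} : IsInner α → IsInner β → IsInner (α.trans β)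

variable (S) in
/-- the monoid `Inn(S)` -/
def Inn : Type u := {α : S ≃. S // IsInner α}

/-- the multiplication of `Inn(S)`: `α * β` is first `α`, then `β` -/
instance : Semigroup (Inn S) where
  mul α β := ⟨α.1.trans β.1, α.2.trans β.2⟩
  mul_assoc α β γ := Subtype.ext (PEquiv.trans_assoc α.1 β.1 γ.1)

variable (S) in
/-- finitely generated -/
def FinGen : Prop := ∃ T : Set S, T.Finite ∧ Subsemigroup.closure T = ⊤

variable (S) in
/-- residually finite: distinct elements have distinct images under some homomorphism to a finite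
semigroup -/
def ResFin : Prop := ∀ x y : S, x ≠ y →
  ∃ (F : Type) (_ : Semigroup F) (_ : Finite F) (f : S →ₙ* F), f x ≠ f y

end Defs

/-! ### Extensions of a semigroup by a set on which it acts -/

/-- the set `T ∪ V ∪ {0}` -/
inductive Ext (T V : Type) : Type
  | op (t : T) : Ext T V
  | pt (v : V) : Ext T V
  | zero : Ext T V

namespace Ext

variable {T V T' V' : Type} [Semigroup T] [SemigroupAction T V] [Semigroup T']
  [SemigroupAction T' V']

/-- the product of `T ∪ V ∪ {0}`: `T` acts on `V` from the left and trivially from the right, all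
other products are `0` -/
def mul : Ext T V → Ext T V → Ext T V
  | op s, op t => op (s * t)
  | op s, pt v => pt (s • v)
  | pt v, op _ => pt v
  | _, _ => zero

instance : Semigroup (Ext T V) where
  mul := mul
  mul_assoc := by
    rintro (a | a | _) (b | b | _) (c | c | _) <;>
      first
        | rfl
        | exact congrArg op (mul_assoc a b c)
        | exact congrArg pt (mul_smul a b c)

@[simp] theorem op_mul_op (s t : T) : (op s * op t : Ext T V) = op (s * t) := rfl
@[simp] theorem op_mul_pt (s : T) (v : V) : (op s * pt v : Ext T V) = pt (s • v) := rfl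
@[simp] theorem pt_mul_op (s : T) (v : V) : (pt v * op s : Ext T V) = pt v := rfl
@[simp] theorem pt_mul_pt (v w : V) : (pt v * pt w : Ext T V) = zero := rfl
@[simp] theorem mul_zero' (a : Ext T V) : a * zero = zero := by cases a <;> rfl
@[simp] theorem zero_mul' (a : Ext T V) : zero * a = zero := by cases a <;> rfl

/-- the homomorphism induced by an equivariant map -/
def map (f : T →ₙ* T') (j : V → V') (h : ∀ t v, j (t • v) = f t • j v) :
    Ext T V →ₙ* Ext T' V' where
  toFun
    | op t => op (f t)
    | pt v => pt (j v)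
    | zero => zero
  map_mul' := by
    rintro (a | a | _) (b | b | _) <;> simp [h]

instance [Finite T] [Finite V] : Finite (Ext T V) := by
  have : Function.Injective (fun a : Ext T V => match a with
    | op t => (some (Sum.inl t) : Option (T ⊕ V))
    | pt v => some (Sum.inr v)
    | zero => none) := by
    rintro (a | a | _) (b | b | _) h <;> simp_all
  exact Finite.of_injective _ this

end Ext

open Ext

/-! ### The semigroup `T` -/

/-- the ambient monoid of `T` -/
abbrev P : Type := Multiplicative ℕ × Equiv.Perm ℤ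

/-- `x : n ↦ n + 1`, of length one -/
def x0 : P := (Multiplicative.ofAdd 1, Equiv.addRight (1 : ℤ))
/-- `y : n ↦ n - 1`, of length one -/
def y0 : P := (Multiplicative.ofAdd 1, Equiv.addRight (-1 : ℤ))
/-- `z : n ↦ - n`, of length one -/
def z0 : P := (Multiplicative.ofAdd 1, Equiv.neg ℤ)

/-- the semigroup `T` generated by `x`, `y` and `z` -/
abbrev T : Type := Subsemigroup.closure ({x0, y0, z0} : Set P)

def x : T := ⟨x0, Subsemigroup.subset_closure (by simp)⟩
def y : T := ⟨y0, Subsemigroup.subset_closure (by simp)⟩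
def z : T := ⟨z0, Subsemigroup.subset_closure (by simp)⟩

instance : SemigroupAction T ℤ where
  smul t n := t.1.2 n
  mul_smul _ _ _ := rfl

theorem smul_def (t : T) (n : ℤ) : t • n = t.1.2 n := rfl

@[simp] theorem x_smul (n : ℤ) : x • n = n + 1 := rfl
@[simp] theorem y_smul (n : ℤ) : y • n = n - 1 := rfl
@[simp] theorem z_smul (n : ℤ) : z • n = - n := rfl

/-- the length -/
def len (t : T) : ℕ := Multiplicative.toAdd t.1.1

theorem len_mul (s t : T) : len (s * t) = len s + len t := rfl

theorem len_pos (t : T) : 0 < len t := by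
  obtain ⟨t, ht⟩ := t
  refine Subsemigroup.closure_induction
    (p := fun t _ => 0 < Multiplicative.toAdd (t : P).1) ?_ ?_ ht
  · intro t ht
    simp only [Set.mem_insert_iff, Set.mem_singleton_iff] at ht
    rcases ht with rfl | rfl | rfl <;> simp [x0, y0, z0]
  · intro a b _ _ h1 _
    exact Nat.add_pos_left h1 _

theorem mul_ne_right (s t : T) : s * t ≠ t := by
  intro h
  have h1 := congrArg len h
  rw [len_mul] at h1
  have := len_pos s
  omega

/-- the elements of `T` respect congruences modulo `N` -/
theorem smul_congr (N : ℕ) (t : T) (m n : ℤ) (h : (m : ZMod N) = n) :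
    ((t • m : ℤ) : ZMod N) = ((t • n : ℤ) : ZMod N) := by
  obtain ⟨t, ht⟩ := t
  show ((t.2 m : ℤ) : ZMod N) = ((t.2 n : ℤ) : ZMod N)
  revert m n
  refine Subsemigroup.closure_induction (p := fun t _ => ∀ m n : ℤ, (m : ZMod N) = n →
    (((t : P).2 m : ℤ) : ZMod N) = ((t.2 n : ℤ) : ZMod N)) ?_ ?_ ht
  · intro t ht m n h
    simp only [Set.mem_insert_iff, Set.mem_singleton_iff] at ht
    rcases ht with rfl | rfl | rfl <;> simp [x0, y0, z0, h]
  · intro a b _ _ h1 h2 m n h
    exact h1 _ _ (h2 _ _ h)

/-- the action of `T` on `ZMod N` -/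
def actMod (N : ℕ) : T →ₙ* Function.End (ZMod N) where
  toFun t := fun a => ((t • (a.cast : ℤ) : ℤ) : ZMod N)
  map_mul' s t := by
    funext a
    show (((s * t) • (a.cast : ℤ) : ℤ) : ZMod N) = _
    rw [mul_smul]
    apply smul_congr
    simp

instance (N : ℕ) [NeZero N] : Finite (Function.End (ZMod N)) :=
  inferInstanceAs (Finite (ZMod N → ZMod N))

/-- reduction modulo `N` of the points -/
def redPt (N : ℕ) : Ext T ℤ →ₙ* Ext (Function.End (ZMod N)) (ZMod N) :=
  Ext.map (actMod N) (fun n => (n : ZMod N)) (by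
    intro t v
    show _ = ((t • (((v : ℤ) : ZMod N).cast : ℤ) : ℤ) : ZMod N)
    apply smul_congr
    simp)

/-- the trivial action of a finite cyclic group on a point -/
instance instAct (N : ℕ) : SemigroupAction (Multiplicative (ZMod N)) Unit where
  smul _ _ := ()
  mul_smul _ _ _ := rfl

/-- reduction modulo `N` of the length -/
def redLen (N : ℕ) : Ext T ℤ →ₙ* Ext (Multiplicative (ZMod N)) Unit :=
  Ext.map
    { toFun := fun t => Multiplicative.ofAdd ((len t : ℕ) : ZMod N)
      map_mul' := fun s t => by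
        rw [len_mul, Nat.cast_add, ofAdd_add] }
    (fun _ => ()) (fun _ _ => rfl)

/-! ### `S = T ∪ ℤ ∪ {0}` is finitely generated and residually finite -/

theorem finGen : FinGen (Ext T ℤ) := by
  refine ⟨{op x, op y, op z, pt 0}, by simp, ?_⟩
  set C := Subsemigroup.closure ({op x, op y, op z, pt 0} : Set (Ext T ℤ)) with hC
  have hx : op x ∈ C := Subsemigroup.subset_closure (by simp)
  have hy : op y ∈ C := Subsemigroup.subset_closure (by simp)
  have hz : op z ∈ C := Subsemigroup.subset_closure (by simp)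
  have h0 : (pt 0 : Ext T ℤ) ∈ C := Subsemigroup.subset_closure (by simp)
  have hzero : (zero : Ext T ℤ) ∈ C := C.mul_mem h0 h0
  have hpt : ∀ n : ℤ, (pt n : Ext T ℤ) ∈ C := by
    intro n
    induction n using Int.induction_on with
    | zero => exact h0
    | succ i ih =>
      have := C.mul_mem hx ih
      simpa using this
    | pred i ih =>
      have := C.mul_mem hy ih
      simpa using this
  have hop : ∀ t : T, (op t : Ext T ℤ) ∈ C := by
    rintro ⟨t, ht⟩
    refine Subsemigroup.closure_induction (p := fun t ht => (op ⟨t, ht⟩ : Ext T ℤ) ∈ C) ?_ ?_ ht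
    · intro t ht
      simp only [Set.mem_insert_iff, Set.mem_singleton_iff] at ht
      rcases ht with rfl | rfl | rfl
      · exact hx
      · exact hy
      · exact hz
    · intro a b ha hb h1 h2
      exact C.mul_mem h1 h2
  rw [eq_top_iff]
  rintro (a | a | _) -
  · exact hop a
  · exact hpt a
  · exact hzero

theorem sep_pt {m n : ℤ} (h : m ≠ n) : ∃ N : ℕ, 0 < N ∧ (m : ZMod N) ≠ n := by
  refine ⟨(m - n).natAbs + 1, by omega, ?_⟩
  intro h1
  rw [ZMod.intCast_eq_intCast_iff_dvd_sub] at h1
  have h2 : n - m ≠ 0 := fun h3 => h (by omega)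
  have h3 := Int.le_of_dvd (b := |n - m|) (by positivity) ((dvd_abs _ _).2 h1)
  have h4 : |n - m| = ((m - n).natAbs : ℤ) := by
    rw [Int.natCast_natAbs, abs_sub_comm]
  rw [h4] at h3
  push_cast at h3
  omega

theorem sep_len {s t : T} (h : len s ≠ len t) : ∃ N : ℕ, 0 < N ∧
    ((len s : ℕ) : ZMod N) ≠ ((len t : ℕ) : ZMod N) := by
  refine ⟨len s + len t + 1, by omega, ?_⟩
  intro h1
  rw [ZMod.natCast_eq_natCast_iff'] at h1
  rw [Nat.mod_eq_of_lt (by omega), Nat.mod_eq_of_lt (by omega)] at h1
  exact h h1

theorem resFin : ResFin (Ext T ℤ) := by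
  have kind : ∀ a b : Ext T ℤ, (redLen 1 a ≠ redLen 1 b) →
      ∃ (F : Type) (_ : Semigroup F) (_ : Finite F) (f : Ext T ℤ →ₙ* F), f a ≠ f b :=
    fun a b h => ⟨_, inferInstance, inferInstance, redLen 1, h⟩
  have pts : ∀ m n : ℤ, m ≠ n → ∃ N : ℕ, 0 < N ∧ redPt N (pt m) ≠ redPt N (pt n) := by
    intro m n h
    obtain ⟨N, hN, h1⟩ := sep_pt h
    exact ⟨N, hN, fun h2 => h1 (Ext.pt.inj h2)⟩
  rintro (a | a | _) (b | b | _) hab
  · by_cases h2 : a.1.2 = b.1.2
    · have h1 : len a ≠ len b := by
        intro h1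
        apply hab
        congr 1
        exact Subtype.ext (Prod.ext (Multiplicative.toAdd.injective h1) h2)
      obtain ⟨N, hN, h3⟩ := sep_len h1
      have : NeZero N := ⟨hN.ne'⟩
      refine ⟨_, inferInstance, inferInstance, redLen N, fun h4 => h3 ?_⟩
      exact Multiplicative.ofAdd.injective (Ext.op.inj h4)
    · obtain ⟨n, hn⟩ : ∃ n, a.1.2 n ≠ b.1.2 n := by
        by_contra hcon
        push Not at hcon
        exact h2 (Equiv.ext hcon)
      obtain ⟨N, hN, h3⟩ := pts _ _ hn
      have : NeZero N := ⟨hN.ne'⟩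
      refine ⟨_, inferInstance, inferInstance, redPt N, fun h4 => h3 ?_⟩
      have e1 : (pt (a.1.2 n) : Ext T ℤ) = op a * pt n := rfl
      have e2 : (pt (b.1.2 n) : Ext T ℤ) = op b * pt n := rfl
      rw [e1, e2, map_mul, map_mul, h4]
  · exact kind _ _ (fun h => by injection h)
  · exact kind _ _ (fun h => by injection h)
  · exact kind _ _ (fun h => by injection h)
  · obtain ⟨N, hN, h3⟩ := pts a b (fun h => hab (by rw [h]))
    have : NeZero N := ⟨hN.ne'⟩
    exact ⟨_, inferInstance, inferInstance, redPt N, h3⟩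
  · exact kind _ _ (fun h => by injection h)
  · exact kind _ _ (fun h => by injection h)
  · exact kind _ _ (fun h => by injection h)
  · exact absurd rfl hab

/-! ### `Inn(S)` is not residually finite -/

/-- `x ^ (n + 1)` -/
def xs : ℕ → T
  | 0 => x
  | n + 1 => xs n * x

/-- `y ^ (n + 1)` -/
def ys : ℕ → T
  | 0 => y
  | n + 1 => ys n * y

@[simp] theorem xs_smul (n : ℕ) (m : ℤ) : xs n • m = m + (n + 1) := by
  induction n generalizing m with
  | zero => simp [xs]
  | succ n ih =>
    rw [xs, mul_smul, ih, x_smul]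
    push_cast
    ring

@[simp] theorem ys_smul (n : ℕ) (m : ℤ) : ys n • m = m - (n + 1) := by
  induction n generalizing m with
  | zero => simp [ys]
  | succ n ih =>
    rw [ys, mul_smul, ih, y_smul]
    push_cast
    ring

/-- translation by `n + 1` -/
noncomputable def tp (n : ℕ) : Inn (Ext T ℤ) := ⟨phi (some (op (ys n))) (some (op (xs n))), .phi _ _⟩
/-- translation by `-(n + 1)` -/
noncomputable def tm (n : ℕ) : Inn (Ext T ℤ) := ⟨phi (some (op (xs n))) (some (op (ys n))), .phi _ _⟩
/-- the identity of `{pt 0, zero}` -/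
noncomputable def ep : Inn (Ext T ℤ) := ⟨phi none (some (op z)), .phi _ _⟩
/-- the identity of `{zero}` -/
noncomputable def oo : Inn (Ext T ℤ) := ⟨phi (some zero) (some zero), .phi _ _⟩

open Classical in
theorem phi_eq_some {S : Type} [Semigroup S] {g h : Option S} {a b : S} :
    phi g h a = some b ↔ a ∈ D g h ∧ rm (lm h a) g = b := by
  show (if a ∈ D g h then some (rm (lm h a) g) else none) = some b ↔ _
  split_ifs with H
  · simp [H]
  · simp [H]

theorem tp_some (n : ℕ) (a b : Ext T ℤ) : (tp n).1 a = some b ↔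
    (∃ m : ℤ, a = pt m ∧ b = pt (m + (n + 1))) ∨ (a = zero ∧ b = zero) := by
  rw [tp, phi_eq_some]
  rcases a with a | a | _
  · simp only [D, lm, rm, Set.mem_ofPred_eq, op_mul_op, reduceCtorEq, false_and, exists_false,
      or_false, iff_false, not_and]
    rintro ⟨h, -⟩
    injection h with h
    rw [← mul_assoc] at h
    exact absurd h (mul_ne_right _ _)
  · simp [D, lm, rm, eq_comm]
  · simp [D, lm, rm, eq_comm]

theorem tm_some (n : ℕ) (a b : Ext T ℤ) : (tm n).1 a = some b ↔
    (∃ m : ℤ, a = pt m ∧ b = pt (m - (n + 1))) ∨ (a = zero ∧ b = zero) := by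
  rw [tm, phi_eq_some]
  rcases a with a | a | _
  · simp only [D, lm, rm, Set.mem_ofPred_eq, op_mul_op, reduceCtorEq, false_and, exists_false,
      or_false, iff_false, not_and]
    rintro ⟨h, -⟩
    injection h with h
    rw [← mul_assoc] at h
    exact absurd h (mul_ne_right _ _)
  · simp [D, lm, rm, eq_comm]
  · simp [D, lm, rm, eq_comm]

theorem ep_some (a b : Ext T ℤ) : ep.1 a = some b ↔
    (a = pt 0 ∧ b = pt 0) ∨ (a = zero ∧ b = zero) := by
  rw [ep, phi_eq_some]
  rcases a with a | a | _
  · simp only [D, lm, rm, Set.mem_ofPred_eq, op_mul_op, reduceCtorEq, false_and, or_false,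
      iff_false, not_and]
    rintro ⟨h, -⟩
    injection h with h
    exact absurd h (mul_ne_right _ _)
  · simp only [D, lm, rm, Set.mem_ofPred_eq, op_mul_pt, z_smul, pt_mul_op, and_true, pt.injEq,
      reduceCtorEq, false_and, or_false]
    constructor
    · rintro ⟨h1, rfl⟩
      have : a = 0 := by omega
      subst this
      simp
    · rintro ⟨rfl, rfl⟩
      simp
  · simp [D, lm, rm, eq_comm]

theorem oo_some (a b : Ext T ℤ) : oo.1 a = some b ↔ (a = zero ∧ b = zero) := by
  rw [oo, phi_eq_some]
  rcases a with a | a | _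
  · simp [D, lm, rm]
  · simp [D, lm, rm]
  · simp [D, lm, rm, eq_comm]

theorem mul_some {α β : Inn (Ext T ℤ)} {a c : Ext T ℤ} :
    (α * β).1 a = some c ↔ ∃ b, α.1 a = some b ∧ β.1 b = some c := by
  show (α.1.trans β.1) a = some c ↔ _
  rw [PEquiv.trans_eq_some]

theorem inn_ext {α β : Inn (Ext T ℤ)} (h : ∀ a b, α.1 a = some b ↔ β.1 a = some b) : α = β := by
  apply Subtype.ext
  apply PEquiv.ext
  intro a
  apply Option.ext
  intro b
  exact h a b

theorem prod_same (n : ℕ) : ep * tp n * tm n * ep = ep := by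
  apply inn_ext
  intro a b
  simp only [mul_some, tp_some, tm_some, ep_some]
  constructor
  · rintro ⟨c, ⟨d, ⟨e, ⟨rfl, rfl⟩ | ⟨rfl, rfl⟩, h2⟩, h3⟩, h4⟩
    · rcases h4 with ⟨rfl, rfl⟩ | ⟨rfl, rfl⟩
      · simp
      · rcases h3 with ⟨m, _, h⟩ | ⟨rfl, _⟩
        · exact absurd h (by simp)
        · rcases h2 with ⟨m, _, h⟩ | ⟨h, _⟩ <;> exact absurd h (by simp)
    · rcases h2 with ⟨m, h, _⟩ | ⟨_, rfl⟩
      · exact absurd h (by simp)
      · rcases h3 with ⟨m, h, _⟩ | ⟨_, rfl⟩
        · exact absurd h (by simp)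
        · rcases h4 with ⟨h, _⟩ | ⟨_, rfl⟩
          · exact absurd h (by simp)
          · simp
  · rintro (⟨rfl, rfl⟩ | ⟨rfl, rfl⟩)
    · exact ⟨pt 0, ⟨pt (0 + (n + 1)), ⟨pt 0, by simp, by simp⟩, Or.inl ⟨_, rfl, by simp⟩⟩, by simp⟩
    · exact ⟨zero, ⟨zero, ⟨zero, by simp, by simp⟩, by simp⟩, by simp⟩

theorem prod_diff {n m : ℕ} (hnm : n ≠ m) : ep * tp n * tm m * ep = oo := by
  apply inn_ext
  intro a b
  simp only [mul_some, tp_some, tm_some, ep_some, oo_some]
  constructor
  · rintro ⟨c, ⟨d, ⟨e, ⟨rfl, rfl⟩ | ⟨rfl, rfl⟩, h2⟩, h3⟩, h4⟩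
    · rcases h2 with ⟨k, hk, rfl⟩ | ⟨h, _⟩
      · rcases h3 with ⟨l, hl, rfl⟩ | ⟨h, _⟩
        · rcases h4 with ⟨h4, rfl⟩ | ⟨h, _⟩
          · exfalso
            injection hk with hk
            injection hl with hl
            injection h4 with h4
            apply hnm
            omega
          · exact absurd h (by simp)
        · exact absurd h (by simp)
      · exact absurd h (by simp)
    · rcases h2 with ⟨m, h, _⟩ | ⟨_, rfl⟩
      · exact absurd h (by simp)
      · rcases h3 with ⟨m, h, _⟩ | ⟨_, rfl⟩
        · exact absurd h (by simp)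
        · rcases h4 with ⟨h, _⟩ | ⟨_, rfl⟩
          · exact absurd h (by simp)
          · simp
  · rintro ⟨rfl, rfl⟩
    exact ⟨zero, ⟨zero, ⟨zero, by simp, by simp⟩, by simp⟩, by simp⟩

theorem ep_ne_oo : ep ≠ oo := by
  intro h
  have h1 : oo.1 (pt 0) = some (pt 0) := by
    rw [← h, ep_some]
    simp
  rw [oo_some] at h1
  simp at h1

/-- There is a finitely generated residually finite semigroup `S` such that `Inn(S)` is not residually
finite. -/
theorem result : ∃ (S : Type) (_ : Semigroup S), FinGen S ∧ ResFin S ∧ ¬ ResFin (Inn S) := by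
  refine ⟨Ext T ℤ, inferInstance, finGen, resFin, ?_⟩
  intro h
  obtain ⟨F, _, _, f, hf⟩ := h ep oo ep_ne_oo
  obtain ⟨n, m, hnm, h1⟩ := Finite.exists_ne_map_eq_of_infinite (fun n : ℕ => f (tm n))
  apply hf
  have h2 : f (tm n) = f (tm m) := h1
  calc f ep = f (ep * tp n * tm n * ep) := by rw [prod_same]
    _ = f ep * f (tp n) * f (tm n) * f ep := by simp only [map_mul]
    _ = f ep * f (tp n) * f (tm m) * f ep := by rw [h2]
    _ = f (ep * tp n * tm m * ep) := by simp only [map_mul]
    _ = f oo := by rw [prod_diff hnm]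

end Pool.Agent.Results.MP_c9edc3_al.NotResiduallyFinite
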